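import Mathlib
import Pool.Agent.Lib_MP_dc226a_gt.Main
import Pool.Agent.Lib_MP_dc226a_gt.Model

set_option autoImplicit false

open Pool.Agent.LibMixed Manifold ContDiff

namespace Pool.Agent.Results.MP_dc226a_gt.MixedRankHarmonic

/-- `M = CP² # -CP²`, a closed 4-manifold, carries an intrinsically harmonic 2-form of rank at
least 2 everywhere, of rank 2 at some point and of rank 4 at another: there is a compact Hausdorff
smooth manifold which is the orbit space that describes `M`, and every such manifold carries such a
2-form. -/
theorem result.{u} :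
    (∃ (X : Type) (_ : TopologicalSpace X) (_ : CompactSpace X) (_ : T2Space X)
      (_ : ChartedSpace (EuclideanSpace ℝ (Fin 4)) X),
        IsCP2SumCP2bar (EuclideanSpace ℝ (Fin 4)) X) ∧
    ∀ (X : Type u) [TopologicalSpace X] [ChartedSpace (EuclideanSpace ℝ (Fin 4)) X],
      IsCP2SumCP2bar (EuclideanSpace ℝ (Fin 4)) X →
        HasMixedHarmonicForm (EuclideanSpace ℝ (Fin 4)) X := by
  refine ⟨⟨M4, inferInstance, inferInstance, inferInstance, inferInstance, inferInstance, pr,
    isOrbitProjection_pr⟩, ?_⟩
  intro X _ _ h
  exact hasMixedHarmonicForm (by simp) h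

end Pool.Agent.Results.MP_dc226a_gt.MixedRankHarmonic
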